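import Pool.Agent.Helper712_LP.Stmts

/-!
# LP, seat 5: the generating functional of the nodes at a time `s`, marked by their motions
-/

set_option autoImplicit false

namespace Pool.Agent.Helper442_LP

open MeasureTheory ProbabilityTheory Set Filter Topology
open scoped ENNReal NNReal
open Pool.Agent.Helper712_LP

theorem motions_of {d : ℕ} {Ω : Type} [MeasurableSpace Ω] {P : Measure Ω} {lam : ℝ≥0}
    {X : ℕ → Ω → E d} {Z : ℕ → ℝ≥0 → Ω → E d} (h : MobileNodes P lam X Z) : Motions P Z :=
  ⟨h.measurable, h.brownian, h.indep⟩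

theorem measurable_cell {d : ℕ} (ε : ℝ) : Measurable (cell ε : E d → Fin d → ℤ) := by
  refine measurable_pi_lambda _ fun j => ?_
  have h : Measurable (fun x : E d => x j / ε) := by fun_prop
  exact Int.measurable_floor.comp h

theorem volume_cell {d : ℕ} {ε : ℝ} (hε : 0 < ε) (v : E d) (c : Fin d → ℤ) :
    volume {z : E d | cell ε (z + v) = c} = ENNReal.ofReal (ε ^ d) := by
  have h1 : {z : E d | cell ε (z + v) = c} = (fun z => z + v) ⁻¹' {z | cell ε z = c} := rfl
  rw [h1, measure_preimage_add_right]
  have h2 : {z : E d | cell ε z = c} =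
      (WithLp.ofLp) ⁻¹' (pi univ fun j => Ico (ε * (c j : ℝ)) (ε * ((c j : ℝ) + 1))) := by
    ext z
    constructor
    · intro h j _
      have h5 : ⌊z j / ε⌋ = c j := congrFun h j
      rw [Int.floor_eq_iff, le_div_iff₀ hε, div_lt_iff₀ hε] at h5
      exact ⟨by linarith [h5.1], by linarith [h5.2]⟩
    · intro h
      funext j
      show ⌊z j / ε⌋ = c j
      rw [Int.floor_eq_iff, le_div_iff₀ hε, div_lt_iff₀ hε]
      have h5 := h j (mem_univ j)
      exact ⟨by linarith [h5.1], by linarith [h5.2]⟩
  rw [h2, (PiLp.volume_preserving_ofLp (Fin d)).measure_preimage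
    (MeasurableSet.univ_pi fun _ => measurableSet_Ico).nullMeasurableSet, Real.volume_pi_Ico]
  have h3 : ∀ i, ENNReal.ofReal (ε * ((c i : ℝ) + 1) - ε * (c i : ℝ)) = ENNReal.ofReal ε := by
    intro i; congr 1; ring
  simp only [h3, Finset.prod_const, Finset.card_univ, Fintype.card_fin]
  rw [ENNReal.ofReal_pow hε.le]

theorem volume_cells {d : ℕ} {ε : ℝ} (hε : 0 < ε) (v : E d) (F : Finset (Fin d → ℤ)) :
    volume {z : E d | cell ε (z + v) ∈ F} = (F.card : ℝ≥0∞) * ENNReal.ofReal (ε ^ d) := by
  have h1 : {z : E d | cell ε (z + v) ∈ F} = ⋃ c ∈ F, {z : E d | cell ε (z + v) = c} := by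
    ext z; simp
  rw [h1, measure_biUnion_finset]
  · simp only [volume_cell hε v, Finset.sum_const, nsmul_eq_mul]
  · intro a _ b _ hab
    simp only [Function.onFun]
    rw [Set.disjoint_left]
    intro z hz hz'
    exact hab (hz.symm.trans hz')
  · intro c _
    have : Measurable (fun z : E d => cell ε (z + v)) :=
      (measurable_cell ε).comp (measurable_id.add_const v)
    exact this (measurableSet_singleton c)

/-- The generating functional of the nodes in the cells `F` at time `s` whose motion is in `B`. -/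
theorem functional (hM : S_marked) (hL : S_pathLaw) (hI : S_pathIndep)
    {d : ℕ} {Ω : Type} [MeasurableSpace Ω] (P : Measure Ω)
    [IsProbabilityMeasure P] {lam : ℝ≥0} {X : ℕ → Ω → E d} {Z : ℕ → ℝ≥0 → Ω → E d}
    (h : MobileNodes P lam X Z) {ε : ℝ} (hε : 0 < ε) (s : ℝ≥0) (F : Finset (Fin d → ℤ))
    (B : Set (ℝ≥0 → E d)) (hB : MeasurableSet B) (c : ℝ≥0∞) (hc : c ≤ 1) :
    ∫⁻ ω, ⨅ m : ℕ, ∏ i ∈ Finset.range m,
      (1 - {q : E d × (ℝ≥0 → E d) | cell ε (q.1 + q.2 s) ∈ F ∧ q.2 ∈ B}.indicator
        (fun _ => c) (X i ω, fun t => Z i t ω)) ∂P =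
      ENNReal.ofReal (Real.exp (-(lam * (c.toReal *
        (P {ω | (fun t => Z 0 t ω) ∈ B}).toReal * (F.card * ε ^ d))))) := by
  have hmZ : ∀ i, Measurable (fun ω (t : ℝ≥0) => Z i t ω) := fun i =>
    measurable_pi_lambda _ fun t => h.measurable i t
  have hmo := motions_of h
  set W : Measure (ℝ≥0 → E d) := P.map (fun ω (t : ℝ≥0) => Z 0 t ω) with hW
  have : IsProbabilityMeasure W := Measure.isProbabilityMeasure_map (hmZ 0).aemeasurable
  set S : Set (E d × (ℝ≥0 → E d)) := {q | cell ε (q.1 + q.2 s) ∈ F ∧ q.2 ∈ B} with hS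
  have hSm : MeasurableSet S := by
    have h1 : Measurable (fun q : E d × (ℝ≥0 → E d) => cell ε (q.1 + q.2 s)) :=
      (measurable_cell ε).comp (measurable_fst.add ((measurable_pi_apply s).comp measurable_snd))
    exact (h1 F.measurableSet).inter (measurable_snd hB)
  have hφm : Measurable (S.indicator (fun _ => c)) := measurable_const.indicator hSm
  have hint : ∫⁻ z, ∫⁻ m, S.indicator (fun _ => c) (z, m) ∂W =
      c * W B * (F.card * ENNReal.ofReal (ε ^ d)) := by
    rw [lintegral_lintegral_swap (f := fun z m => S.indicator (fun _ => c) (z, m))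
      (by exact hφm.aemeasurable)]
    have h2 : ∀ m : ℝ≥0 → E d, ∫⁻ z, S.indicator (fun _ => c) (z, m) =
        B.indicator (fun _ => c * (F.card * ENNReal.ofReal (ε ^ d))) m := by
      intro m
      by_cases hm : m ∈ B
      · rw [indicator_of_mem hm]
        have h3 : ∀ z : E d, S.indicator (fun _ => c) (z, m) =
            {z : E d | cell ε (z + m s) ∈ F}.indicator (fun _ => c) z := by
          intro z
          by_cases hz : cell ε (z + m s) ∈ F
          · rw [indicator_of_mem (show (z, m) ∈ S from ⟨hz, hm⟩),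
              indicator_of_mem (show z ∈ {z : E d | cell ε (z + m s) ∈ F} from hz)]
          · rw [indicator_of_notMem (show (z, m) ∉ S from fun h => hz h.1),
              indicator_of_notMem (show z ∉ {z : E d | cell ε (z + m s) ∈ F} from hz)]
        have h4 : Measurable (fun z : E d => cell ε (z + m s)) :=
          (measurable_cell ε).comp (measurable_id.add_const _)
        simp only [h3]
        have h6 : MeasurableSet {z : E d | cell ε (z + m s) ∈ F} := h4 F.measurableSet
        rw [lintegral_indicator_const h6, volume_cells hε]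
      · rw [indicator_of_notMem hm]
        have h3 : ∀ z : E d, S.indicator (fun _ => c) (z, m) = 0 := by
          intro z
          exact indicator_of_notMem (show (z, m) ∉ S from fun h => hm h.2) _
        simp [h3]
    simp only [h2]
    rw [lintegral_indicator_const hB]
    ring
  have hWB : W B = P {ω | (fun t => Z 0 t ω) ∈ B} := by
    rw [hW, Measure.map_apply (hmZ 0) hB]; rfl
  have key := hM d Ω P lam X h.points (ℝ≥0 → E d) (fun i ω t => Z i t ω) W hmZ
    (fun i => hL d Ω Ω P P Z Z hmo hmo i 0) (hI d Ω P Z hmo) h.indep_points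
    (S.indicator (fun _ => c)) hφm
    (fun q => (indicator_le_self' (fun _ _ => zero_le) q).trans hc)
    (by
      rw [hint]
      refine ENNReal.mul_ne_top (ENNReal.mul_ne_top (ne_top_of_le_ne_top ENNReal.one_ne_top hc)
        (measure_ne_top W B)) (ENNReal.mul_ne_top (ENNReal.natCast_ne_top _)
        ENNReal.ofReal_ne_top))
  rw [key, hint, hWB]
  congr 5
  rw [ENNReal.toReal_mul, ENNReal.toReal_mul, ENNReal.toReal_mul, ENNReal.toReal_natCast,
    ENNReal.toReal_ofReal (by positivity)]

end Pool.Agent.Helper442_LP
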