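import Pool.Agent.Helper442_LP.Base

/-!
# LP, seat 5: `S_count`
-/

set_option autoImplicit false

namespace Pool.Agent.Helper442_LP

open MeasureTheory ProbabilityTheory Set Filter Topology
open scoped ENNReal NNReal
open Pool.Agent.Helper712_LP

theorem count (hM : S_marked) (hL : S_pathLaw) (hI : S_pathIndep) : S_count := by
  intro d Ω _ P _ lam X Z h L a N s w hL0 ha hN
  have hmo := motions_of h
  have hmZ : ∀ i, Measurable (fun ω (t : ℝ≥0) => Z i t ω) := fun i =>
    measurable_pi_lambda _ fun t => h.measurable i t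
  have he1 : Real.exp (-a) ≤ 1 := Real.exp_le_one_iff.2 (by linarith)
  have hc : ENNReal.ofReal (1 - Real.exp (-a)) ≤ 1 := by
    rw [← ENNReal.ofReal_one]
    exact ENNReal.ofReal_le_ofReal (by linarith [Real.exp_pos (-a)])
  have key := functional hM hL hI P h hL0 s {w} univ MeasurableSet.univ _ hc
  set S : Set (E d × (ℝ≥0 → E d)) := {q | cell L (q.1 + q.2 s) ∈ ({w} : Finset (Fin d → ℤ)) ∧
    q.2 ∈ (univ : Set (ℝ≥0 → E d))} with hSd
  have hSm : MeasurableSet S := by
    have h1 : Measurable (fun q : E d × (ℝ≥0 → E d) => cell L (q.1 + q.2 s)) :=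
      (measurable_cell L).comp (measurable_fst.add ((measurable_pi_apply s).comp measurable_snd))
    exact (h1 (Finset.measurableSet {w})).inter MeasurableSet.univ
  set f : Ω → ℝ≥0∞ := fun ω => ⨅ m : ℕ, ∏ i ∈ Finset.range m,
    (1 - S.indicator (fun _ => ENNReal.ofReal (1 - Real.exp (-a))) (X i ω, fun t => Z i t ω))
    with hf
  have hfm : Measurable f := by
    refine Measurable.iInf fun m => Finset.measurable_prod _ fun i _ => ?_
    exact (measurable_const.sub ((measurable_const.indicator hSm).comp
      ((h.points.measurable i).prodMk (hmZ i))))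
  have hsub : {ω | ¬ ManyIn L (nodes X Z s ω) w N} ⊆
      {ω | ENNReal.ofReal (Real.exp (-(a * N))) ≤ f ω} := by
    intro ω hω
    show ENNReal.ofReal (Real.exp (-(a * N))) ≤ ⨅ m : ℕ, ∏ i ∈ Finset.range m,
      (1 - S.indicator (fun _ => ENNReal.ofReal (1 - Real.exp (-a))) (X i ω, fun t => Z i t ω))
    refine le_iInf fun m => ?_
    have h1 : ∀ i, (1 - S.indicator (fun _ => ENNReal.ofReal (1 - Real.exp (-a)))
        (X i ω, fun t => Z i t ω)) =
        ENNReal.ofReal (if cell L (nodes X Z s ω i) = w then Real.exp (-a) else 1) := by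
      intro i
      by_cases hi : cell L (nodes X Z s ω i) = w
      · rw [if_pos hi, indicator_of_mem (show (X i ω, fun t => Z i t ω) ∈ S from
          ⟨by simpa [nodes] using hi, mem_univ _⟩), ← ENNReal.ofReal_one,
          ← ENNReal.ofReal_sub _ (by linarith)]
        congr 1; ring
      · rw [if_neg hi, indicator_of_notMem, tsub_zero, ENNReal.ofReal_one]
        intro hi'
        apply hi
        simpa [nodes] using hi'.1
    simp only [h1]
    rw [← ENNReal.ofReal_prod_of_nonneg (by intro i _; split_ifs <;> positivity)]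
    refine ENNReal.ofReal_le_ofReal ?_
    rw [Finset.prod_ite, Finset.prod_const, Finset.prod_const_one, mul_one, ← Real.exp_nat_mul]
    refine Real.exp_le_exp.2 ?_
    have h2 : (((Finset.range m).filter (fun i => cell L (nodes X Z s ω i) = w)).card : ℝ) ≤ N := by
      by_contra hlt
      push Not at hlt
      exact hω ⟨(Finset.range m).filter (fun i => cell L (nodes X Z s ω i) = w),
        fun i hi => (Finset.mem_filter.1 hi).2, hlt.le⟩
    nlinarith
  have hmar := mul_meas_ge_le_lintegral (μ := P) hfm (ENNReal.ofReal (Real.exp (-(a * N))))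
  rw [key] at hmar
  have h3 : P {ω | ¬ ManyIn L (nodes X Z s ω) w N} ≤
      (ENNReal.ofReal (Real.exp (-(a * N))))⁻¹ * ENNReal.ofReal (Real.exp (-(lam *
        ((ENNReal.ofReal (1 - Real.exp (-a))).toReal *
        (P {ω | (fun t => Z 0 t ω) ∈ (univ : Set (ℝ≥0 → E d))}).toReal *
          ((({w} : Finset (Fin d → ℤ)).card : ℝ) * L ^ d))))) := by
    refine (measure_mono hsub).trans ?_
    rw [← ENNReal.div_eq_inv_mul, ENNReal.le_div_iff_mul_le (Or.inl (by
      simpa using Real.exp_pos _)) (Or.inl ENNReal.ofReal_ne_top), mul_comm]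
    exact hmar
  refine h3.trans (le_of_eq ?_)
  rw [← ENNReal.ofReal_inv_of_pos (Real.exp_pos _), ← ENNReal.ofReal_mul (by positivity),
    ← Real.exp_neg, ← Real.exp_add]
  congr 2
  rw [ENNReal.toReal_ofReal (by linarith)]
  simp
  ring

end Pool.Agent.Helper442_LP
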