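import Pool.Agent.Helper442_LP.Base

/-!
# LP, seat 5: `S_stay`
-/

set_option autoImplicit false

namespace Pool.Agent.Helper442_LP

open MeasureTheory ProbabilityTheory Set Filter Topology
open scoped ENNReal NNReal
open Pool.Agent.Helper712_LP

theorem measurableSet_tube {d : ℕ} (η : ℝ) (δ : ℝ≥0) (v : E d) (s : ℝ≥0) :
    MeasurableSet {m : ℝ≥0 → E d | Tube η δ v (fun u => m (s + u) - m s)} := by
  have h : {m : ℝ≥0 → E d | Tube η δ v (fun u => m (s + u) - m s)} =
      ⋂ q : ℚ≥0, ⋂ _ : q ≤ 1, {m : ℝ≥0 → E d |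
        ‖(m (s + δ * (q : ℝ≥0)) - m s) + ((q : ℝ≥0) : ℝ) • v‖ ≤ η} := by
    ext m
    simp only [mem_iInter]
    exact Iff.rfl
  rw [h]
  refine MeasurableSet.iInter fun q => MeasurableSet.iInter fun _ => ?_
  generalize (δ * (q : ℝ≥0)) = t
  generalize ((q : ℝ≥0) : ℝ) • v = v'
  have h1 : Measurable (fun m : ℝ≥0 → E d => ‖(m (s + t) - m s) + v'‖) := by
    have h2 : Measurable (fun m : ℝ≥0 → E d => m (s + t)) := measurable_pi_apply _
    have h3 : Measurable (fun m : ℝ≥0 → E d => m s) := measurable_pi_apply _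
    exact ((h2.sub h3).add_const _).norm
  exact h1 measurableSet_Iic

theorem stay (hM : S_marked) (hL : S_pathLaw) (hI : S_pathIndep) (hS : S_shift) : S_stay := by
  intro d Ω _ P _ lam X Z h ε η δ s hε F
  have hmo := motions_of h
  set B : Set (ℝ≥0 → E d) := {m | Tube η δ 0 (fun u => m (s + u) - m s)} with hB
  have hBm : MeasurableSet B := measurableSet_tube η δ 0 s
  have key := functional hM hL hI P h hε s F B hBm 1 le_rfl
  set S : Set (E d × (ℝ≥0 → E d)) := {q | cell ε (q.1 + q.2 s) ∈ F ∧ q.2 ∈ B} with hSd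
  -- the probability of the tube at time `s` is the probability at time `0`
  have hmZ : ∀ i, Measurable (fun ω (t : ℝ≥0) => Z i t ω) := fun i =>
    measurable_pi_lambda _ fun t => h.measurable i t
  have hT : P {ω | (fun t => Z 0 t ω) ∈ B} = P {ω | Tube η δ 0 (fun u => Z 0 u ω)} := by
    have hmo' := hS d Ω P Z hmo s
    have e := hL d Ω Ω P P (incr Z s) Z hmo' hmo 0 0
    have hT0 : MeasurableSet {m : ℝ≥0 → E d | Tube η δ 0 m} := by
      have h0 : {m : ℝ≥0 → E d | Tube η δ 0 m} =
          ⋂ q : ℚ≥0, ⋂ _ : q ≤ 1, {m : ℝ≥0 → E d |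
            ‖m (δ * (q : ℝ≥0)) + ((q : ℝ≥0) : ℝ) • (0 : E d)‖ ≤ η} := by
        ext m
        simp only [mem_iInter]
        exact Iff.rfl
      rw [h0]
      refine MeasurableSet.iInter fun q => MeasurableSet.iInter fun _ => ?_
      generalize (δ * (q : ℝ≥0)) = t
      generalize ((q : ℝ≥0) : ℝ) • (0 : E d) = v'
      have h1 : Measurable (fun m : ℝ≥0 → E d => ‖m t + v'‖) := by
        have h2 : Measurable (fun m : ℝ≥0 → E d => m t) := measurable_pi_apply _
        exact (h2.add_const _).norm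
      exact h1 measurableSet_Iic
    have hm1 : Measurable (fun ω (t : ℝ≥0) => incr Z s 0 t ω) :=
      measurable_pi_lambda _ fun t => hmo'.measurable 0 t
    have e1 := congrArg (fun ν : Measure (ℝ≥0 → E d) => ν {m | Tube η δ 0 m}) e
    simp only [Measure.map_apply hm1 hT0, Measure.map_apply (hmZ 0) hT0] at e1
    exact e1
  -- the integrand is the indicator of the event
  have hev : ∀ ω, (⨅ m : ℕ, ∏ i ∈ Finset.range m,
      (1 - S.indicator (fun _ => (1 : ℝ≥0∞)) (X i ω, fun t => Z i t ω))) =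
      {ω | ∀ z ∈ F, z ∉ occStay ε η δ X Z s ω}.indicator (fun _ => (1 : ℝ≥0∞)) ω := by
    intro ω
    by_cases hω : ∀ z ∈ F, z ∉ occStay ε η δ X Z s ω
    · rw [indicator_of_mem (show ω ∈ {ω | ∀ z ∈ F, z ∉ occStay ε η δ X Z s ω} from hω)]
      have h1 : ∀ i, (X i ω, fun t => Z i t ω) ∉ S := by
        intro i hi
        exact hω _ hi.1 ⟨i, rfl, hi.2⟩
      have h2 : ∀ m : ℕ, ∏ i ∈ Finset.range m,
          (1 - S.indicator (fun _ => (1 : ℝ≥0∞)) (X i ω, fun t => Z i t ω)) = 1 := by
        intro m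
        refine Finset.prod_eq_one fun i _ => ?_
        rw [indicator_of_notMem (h1 i), tsub_zero]
      simp only [h2, ciInf_const]
    · rw [indicator_of_notMem (show ω ∉ {ω | ∀ z ∈ F, z ∉ occStay ε η δ X Z s ω} from hω)]
      push Not at hω
      obtain ⟨z, hz, i, hi, hi'⟩ := hω
      have h1 : (X i ω, fun t => Z i t ω) ∈ S := by
        refine ⟨?_, hi'⟩
        show cell ε (X i ω + Z i s ω) ∈ F
        have : cell ε (X i ω + Z i s ω) = z := hi
        rw [this]; exact hz
      refine le_antisymm ?_ zero_le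
      refine (iInf_le _ (i + 1)).trans (le_of_eq ?_)
      refine Finset.prod_eq_zero (Finset.self_mem_range_succ i) ?_
      rw [indicator_of_mem h1, tsub_self]
  -- measurability of the event
  have hSm : MeasurableSet S := by
    have h1 : Measurable (fun q : E d × (ℝ≥0 → E d) => cell ε (q.1 + q.2 s)) :=
      (measurable_cell ε).comp (measurable_fst.add ((measurable_pi_apply s).comp measurable_snd))
    exact (h1 F.measurableSet).inter (measurable_snd hBm)
  have hEv : MeasurableSet {ω | ∀ z ∈ F, z ∉ occStay ε η δ X Z s ω} := by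
    have h1 : {ω | ∀ z ∈ F, z ∉ occStay ε η δ X Z s ω} =
        ⋂ i : ℕ, ((fun ω => (X i ω, fun t : ℝ≥0 => Z i t ω)) ⁻¹' S)ᶜ := by
      ext ω
      simp only [mem_iInter, mem_compl_iff, mem_preimage]
      constructor
      · intro hω i hi
        exact hω _ hi.1 ⟨i, rfl, hi.2⟩
      · rintro hω z hz ⟨i, hi, hi'⟩
        refine hω i ⟨?_, hi'⟩
        show cell ε (X i ω + Z i s ω) ∈ F
        have : cell ε (X i ω + Z i s ω) = z := hi
        rw [this]; exact hz
    rw [h1]
    refine MeasurableSet.iInter fun i => (?_ : MeasurableSet _).compl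
    exact ((h.points.measurable i).prodMk (hmZ i)) hSm
  simp only [hev] at key
  rw [lintegral_indicator_const hEv, one_mul, hT] at key
  rw [key]
  congr 1
  rw [← Real.exp_nat_mul]
  congr 1
  simp only [ENNReal.toReal_one]
  ring

end Pool.Agent.Helper442_LP
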